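import Pool.Agent.Work.MP_47bae8_lc.Defs

set_option autoImplicit false

namespace Pool.Agent.Work.MP_47bae8_bl

/-- The `B`-blocks of a word over the disjoint union of the alphabets `B` and `D`: the word is cut
at all its letters from `D` (which are removed). A word with `n` letters from `D` has `n + 1`
blocks, some of which may be empty. -/
def blocks {B D : Type} : List (B ⊕ D) → List (List B)
  | [] => [[]]
  | .inr _ :: w => [] :: blocks w
  | .inl b :: w => (blocks w).modifyHead (fun z => b :: z)

end Pool.Agent.Work.MP_47bae8_bl
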