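import Pool.Agent.Work.MP_47bae8_ab.Coord
import Pool.Agent.Work.MP_47bae8_bl.Defs

set_option autoImplicit false

namespace Pool.Agent.Work.MP_47bae8_bl

open Pool.Agent.Work.MP_47bae8_lc
open Pool.Agent.Work.MP_47bae8_ab

variable {B D : Type}

lemma blocks_ne_nil (w : List (B ⊕ D)) : blocks w ≠ [] := by
  induction w with
  | nil => simp [blocks]
  | cons x w ih =>
    rcases x with b | d
    · rcases h : blocks w with _ | ⟨z, l⟩
      · exact absurd h ih
      · simp [blocks, h]
    · simp [blocks]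

lemma blocks_inr (d : D) (w : List (B ⊕ D)) : blocks (Sum.inr d :: w) = [] :: blocks w := rfl

lemma blocks_inl (b : B) (w : List (B ⊕ D)) :
    blocks (Sum.inl b :: w) = (blocks w).modifyHead (fun z => b :: z) := rfl

lemma blocks_map_append (z : List B) (w : List (B ⊕ D)) :
    blocks (z.map Sum.inl ++ w) = (blocks w).modifyHead (fun y => z ++ y) := by
  induction z with
  | nil =>
    rcases h : blocks w with _ | ⟨y, l⟩
    · simp [h]
    · simp [h]
  | cons b z ih =>
    rw [List.map_cons, List.cons_append, blocks_inl, ih]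
    rcases h : blocks w with _ | ⟨y, l⟩
    · simp
    · simp

lemma blocks_map (z : List B) : blocks (z.map (Sum.inl : B → B ⊕ D)) = [z] := by
  have := blocks_map_append (D := D) z []
  rw [List.append_nil] at this
  rw [this]
  simp [blocks]

lemma blocks_map_inr (z : List B) (d : D) (w : List (B ⊕ D)) :
    blocks (z.map Sum.inl ++ Sum.inr d :: w) = z :: blocks w := by
  rw [blocks_map_append, blocks_inr]
  simp

lemma blocks_append (w₁ w₂ : List (B ⊕ D)) (d : D) :
    blocks (w₁ ++ Sum.inr d :: w₂) = blocks w₁ ++ blocks w₂ := by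
  induction w₁ with
  | nil => simp [blocks]
  | cons x w ih =>
    rcases x with b | e
    · rw [List.cons_append, blocks_inl, ih, blocks_inl]
      rcases h : blocks w with _ | ⟨z, l⟩
      · exact absurd h (blocks_ne_nil w)
      · simp
    · rw [List.cons_append, blocks_inr, ih, blocks_inr]
      rfl

lemma block_cases (w : List (B ⊕ D)) : (∃ z : List B, w = z.map Sum.inl) ∨
    ∃ (z : List B) (d : D) (w' : List (B ⊕ D)), w = z.map Sum.inl ++ Sum.inr d :: w' := by
  induction w with
  | nil => exact Or.inl ⟨[], rfl⟩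
  | cons x w ih =>
    rcases x with b | d
    · rcases ih with ⟨z, rfl⟩ | ⟨z, d, w', rfl⟩
      · exact Or.inl ⟨b :: z, rfl⟩
      · exact Or.inr ⟨b :: z, d, w', rfl⟩
    · exact Or.inr ⟨[], d, w, rfl⟩

lemma blocks_split {w : List (B ⊕ D)} {l₁ l₂ : List (List B)} (h : blocks w = l₁ ++ l₂)
    (h₁ : l₁ ≠ []) (h₂ : l₂ ≠ []) :
    ∃ (w₁ : List (B ⊕ D)) (d : D) (w₂ : List (B ⊕ D)), w = w₁ ++ Sum.inr d :: w₂ ∧
      blocks w₁ = l₁ ∧ blocks w₂ = l₂ := by
  induction l₁ generalizing w with
  | nil => exact absurd rfl h₁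
  | cons z l₁ ih =>
    rcases block_cases w with ⟨y, rfl⟩ | ⟨y, d, w', rfl⟩
    · rw [blocks_map, List.cons_append, List.cons.injEq] at h
      have := List.append_eq_nil_iff.1 h.2.symm
      exact absurd this.2 h₂
    · rw [blocks_map_inr, List.cons_append, List.cons.injEq] at h
      obtain ⟨rfl, h⟩ := h
      rcases eq_or_ne l₁ [] with rfl | hne
      · exact ⟨y.map Sum.inl, d, w', rfl, blocks_map y, h⟩
      · obtain ⟨w₁, e, w₂, rfl, h3, h4⟩ := ih h hne
        refine ⟨y.map Sum.inl ++ Sum.inr d :: w₁, e, w₂, by simp, ?_, h4⟩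
        rw [blocks_map_inr, h3]

/-! ### Languages over the smaller alphabet -/

/-- A language over `B` as a language over `B ⊕ D`. -/
def emb (D : Type) (X : Set (List B)) : Set (List (B ⊕ D)) := {w | ∃ z ∈ X, w = z.map Sum.inl}

lemma map_inl_inj {z y : List B} (h : z.map (Sum.inl : B → B ⊕ D) = y.map Sum.inl) : z = y :=
  (List.map_injective_iff.2 Sum.inl_injective) h

lemma mem_emb {X : Set (List B)} {z : List B} : z.map Sum.inl ∈ emb D X ↔ z ∈ X := by
  constructor
  · rintro ⟨y, hy, h⟩
    rw [map_inl_inj h]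
    exact hy
  · intro h
    exact ⟨z, h, rfl⟩

lemma all_inl {w : List (B ⊕ D)} (h : ∀ x ∈ w, ∃ b, x = Sum.inl b) :
    ∃ z : List B, w = z.map Sum.inl := by
  induction w with
  | nil => exact ⟨[], rfl⟩
  | cons x w ih =>
    obtain ⟨b, rfl⟩ := h x (by simp)
    obtain ⟨z, rfl⟩ := ih (fun y hy => h y (by simp [hy]))
    exact ⟨b :: z, rfl⟩

lemma emb_compl (X : Set (List B)) : emb D Xᶜ = {w | ∀ x ∈ w, x ∈ {x | ∃ b, x = Sum.inl b}} ∩
    (emb D X)ᶜ := by
  ext w
  simp only [Set.mem_inter_iff, Set.mem_setOf_eq, Set.mem_compl_iff]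
  constructor
  · rintro ⟨z, hz, rfl⟩
    refine ⟨fun x hx => ?_, fun h => hz (mem_emb.1 h)⟩
    obtain ⟨b, -, rfl⟩ := List.mem_map.1 hx
    exact ⟨b, rfl⟩
  · rintro ⟨h1, h2⟩
    obtain ⟨z, rfl⟩ := all_inl h1
    exact ⟨z, fun h => h2 (mem_emb.2 h), rfl⟩

lemma filter_map_inl (t : List (B × Bool)) (f : Bool → Bool) :
    ((t.map (fun p => ((Sum.inl p.1 : B ⊕ D), p.2))).filter (fun p => f p.2)).map Prod.fst =
      ((t.filter (fun p => f p.2)).map Prod.fst).map Sum.inl := by
  induction t with
  | nil => rfl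
  | cons p t ih =>
    rcases h : f p.2 with _ | _
    · simp [List.filter_cons, h, ih]
    · simp [List.filter_cons, h, ih]

lemma emb_shuffle (X Y : Set (List B)) :
    emb D (shuffle X Y) = shuffle (emb D X) (emb D Y) := by
  ext w
  constructor
  · rintro ⟨z, ⟨t, rfl, h1, h2⟩, rfl⟩
    refine ⟨t.map (fun p => (Sum.inl p.1, p.2)), by simp, ?_, ?_⟩
    · exact ⟨_, h1, filter_map_inl t (fun b => b)⟩
    · exact ⟨_, h2, filter_map_inl t (fun b => !b)⟩
  · rintro ⟨t, rfl, ⟨x, hx, h1⟩, ⟨y, hy, h2⟩⟩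
    have h3 : ∀ p ∈ t, ∃ b, p.1 = Sum.inl b := by
      intro p hp
      rcases hp2 : p.2 with _ | _
      · have : p.1 ∈ (t.filter (fun p => !p.2)).map Prod.fst := by
          refine List.mem_map.2 ⟨p, ?_, rfl⟩
          rw [List.mem_filter]
          exact ⟨hp, by simp [hp2]⟩
        rw [h2] at this
        obtain ⟨b, -, hb⟩ := List.mem_map.1 this
        exact ⟨b, hb.symm⟩
      · have : p.1 ∈ (t.filter (fun p => p.2)).map Prod.fst := by
          refine List.mem_map.2 ⟨p, ?_, rfl⟩
          rw [List.mem_filter]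
          exact ⟨hp, by simp [hp2]⟩
        rw [h1] at this
        obtain ⟨b, -, hb⟩ := List.mem_map.1 this
        exact ⟨b, hb.symm⟩
    obtain ⟨s, rfl⟩ : ∃ s : List (B × Bool), t = s.map (fun p => ((Sum.inl p.1 : B ⊕ D), p.2)) := by
      clear h1 h2
      induction t with
      | nil => exact ⟨[], rfl⟩
      | cons p t ih =>
        obtain ⟨b, hb⟩ := h3 p (by simp)
        obtain ⟨s, hs⟩ := ih (fun q hq => h3 q (by simp [hq]))
        refine ⟨(b, p.2) :: s, ?_⟩
        rw [List.map_cons, ← hs, ← hb]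
    rw [filter_map_inl s (fun b => b)] at h1
    rw [filter_map_inl s (fun b => !b)] at h2
    refine ⟨s.map Prod.fst, ⟨s, rfl, ?_, ?_⟩, by simp⟩
    · rw [map_inl_inj h1]
      exact hx
    · rw [map_inl_inj h2]
      exact hy

lemma emb_conc (X Y : Set (List B)) : emb D (conc X Y) = conc (emb D X) (emb D Y) := by
  ext w
  constructor
  · rintro ⟨z, ⟨x, hx, y, hy, rfl⟩, rfl⟩
    exact ⟨_, ⟨x, hx, rfl⟩, _, ⟨y, hy, rfl⟩, by simp⟩
  · rintro ⟨_, ⟨x, hx, rfl⟩, _, ⟨y, hy, rfl⟩, rfl⟩
    exact ⟨x ++ y, ⟨x, hx, y, hy, rfl⟩, by simp⟩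

theorem emb_intermixed [Finite B] [Finite D] {X : Set (List B)} (h : Intermixed X) :
    Intermixed (emb D X) := by
  induction h with
  | letter b =>
    convert Intermixed.letter (Sum.inl b : B ⊕ D) using 1
    ext w
    simp [emb]
  | @compl X _ ih =>
    have : Nonempty (B ⊕ D) := by
      by_contra h
      have hB : IsEmpty B := ⟨fun b => h ⟨Sum.inl b⟩⟩
      have : ∀ Y : Set (List B), ¬ Intermixed Y := by
        intro Y hY
        induction hY with
        | letter b => exact hB.elim b
        | compl _ ih => exact ih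
        | union _ _ ih _ => exact ih
        | conc _ _ ih _ => exact ih
        | shuffle _ _ ih _ => exact ih
      exact this _ ‹Intermixed X›
    rw [emb_compl]
    exact Intermixed.inter' (SF.star _).intermixed ih.compl
  | @union X Y _ _ ih ih' =>
    convert ih.union ih' using 1
    ext w
    simp only [emb, Set.mem_setOf_eq, Set.mem_union]
    constructor
    · rintro ⟨z, h | h, rfl⟩
      · exact Or.inl ⟨z, h, rfl⟩
      · exact Or.inr ⟨z, h, rfl⟩
    · rintro (⟨z, h, rfl⟩ | ⟨z, h, rfl⟩)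
      · exact ⟨z, Or.inl h, rfl⟩
      · exact ⟨z, Or.inr h, rfl⟩
  | conc _ _ ih ih' =>
    rw [emb_conc]
    exact ih.conc ih'
  | shuffle _ _ ih ih' =>
    rw [emb_shuffle]
    exact ih.shuffle ih'

/-- Restriction to the smaller alphabet. -/
theorem res_intermixed [Finite B] [Nonempty B] {K : Set (List (B ⊕ D))} (h : Intermixed K) :
    Intermixed {z : List B | z.map Sum.inl ∈ K} := by
  induction h with
  | letter x =>
    rcases x with b | d
    · convert Intermixed.letter b using 1
      ext z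
      simp only [Set.mem_setOf_eq, Set.mem_singleton_iff]
      rcases z with _ | ⟨c, _ | ⟨e, z⟩⟩
      · simp
      · simp
      · simp
    · convert (SF.empty (A := B)).intermixed using 1
      ext z
      simp only [Set.mem_setOf_eq, Set.mem_singleton_iff, Set.mem_empty_iff_false, iff_false]
      rcases z with _ | ⟨c, _ | ⟨e, z⟩⟩
      · simp
      · simp
      · simp
  | compl _ ih => exact ih.compl
  | union _ _ ih ih' => exact ih.union ih'
  | @conc K₁ K₂ _ _ ih ih' =>
    convert ih.conc ih' using 1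
    ext z
    simp only [Set.mem_setOf_eq, mem_conc]
    constructor
    · rintro ⟨u, hu, v, hv, h⟩
      obtain ⟨x, y, rfl, rfl, rfl⟩ := List.map_eq_append_iff.1 h
      exact ⟨x, hu, y, hv, rfl⟩
    · rintro ⟨x, hx, y, hy, rfl⟩
      exact ⟨_, hx, _, hy, by simp⟩
  | @shuffle K₁ K₂ _ _ ih ih' =>
    convert ih.shuffle ih' using 1
    ext z
    constructor
    · rintro ⟨t, h, h1, h2⟩
      obtain ⟨s, rfl⟩ : ∃ s : List (B × Bool),
          t = s.map (fun p => ((Sum.inl p.1 : B ⊕ D), p.2)) := by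
        clear h1 h2
        induction t generalizing z with
        | nil => exact ⟨[], rfl⟩
        | cons p t ih3 =>
          rcases z with _ | ⟨b, z⟩
          · simp at h
          · rw [List.map_cons, List.map_cons, List.cons.injEq] at h
            obtain ⟨s, hs⟩ := ih3 z h.2
            refine ⟨(b, p.2) :: s, ?_⟩
            rw [List.map_cons, ← hs, ← h.1]
      rw [filter_map_inl s (fun b => b)] at h1
      rw [filter_map_inl s (fun b => !b)] at h2
      refine ⟨s, ?_, h1, h2⟩
      apply map_inl_inj (D := D)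
      rw [← h]
      simp
    · rintro ⟨s, rfl, h1, h2⟩
      refine ⟨s.map (fun p => (Sum.inl p.1, p.2)), by simp, ?_, ?_⟩
      · rw [filter_map_inl s (fun b => b)]
        exact h1
      · rw [filter_map_inl s (fun b => !b)]
        exact h2

/-- A star-free property of the sequence of the types of the blocks is intermixed. -/
theorem bl_intermixed [Finite B] [Finite D] [Nonempty B] {Γ : Type} (γ : List B → Γ)
    (hγ : ∀ c, Intermixed {z : List B | γ z = c}) {S : Set (List Γ)} (hS : SF S) :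
    Intermixed {w : List (B ⊕ D) | (blocks w).map γ ∈ S} := by
  induction hS with
  | empty =>
    convert (SF.empty (A := B ⊕ D)).intermixed using 1
    ext w
    simp
  | letter c =>
    convert emb_intermixed (D := D) (hγ c) using 1
    ext w
    simp only [Set.mem_setOf_eq, Set.mem_singleton_iff]
    constructor
    · intro h
      rcases block_cases w with ⟨z, rfl⟩ | ⟨z, d, w', rfl⟩
      · rw [blocks_map] at h
        exact ⟨z, by simpa using h, rfl⟩
      · rw [blocks_map_inr, List.map_cons, List.cons.injEq, List.map_eq_nil_iff] at h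
        exact absurd h.2 (blocks_ne_nil w')
    · rintro ⟨z, hz, rfl⟩
      rw [blocks_map]
      simpa using hz
  | compl _ ih => exact ih.compl
  | union _ _ ih ih' => exact ih.union ih'
  | @conc S₁ S₂ _ _ ih ih' =>
    have hD : SF {w : List (B ⊕ D) | ∃ x ∈ {x : B ⊕ D | ∃ d, x = Sum.inr d}, w = [x]} :=
      SF.letters _
    have h1 := (ih.conc hD.intermixed).conc ih'
    have h2 : Intermixed {w : List (B ⊕ D) | ([] : List Γ) ∈ S₁ ∧ (blocks w).map γ ∈ S₂} := by
      by_cases h : ([] : List Γ) ∈ S₁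
      · simpa [h] using ih'
      · simpa [h] using (SF.empty (A := B ⊕ D)).intermixed
    have h3 : Intermixed {w : List (B ⊕ D) | ([] : List Γ) ∈ S₂ ∧ (blocks w).map γ ∈ S₁} := by
      by_cases h : ([] : List Γ) ∈ S₂
      · simpa [h] using ih
      · simpa [h] using (SF.empty (A := B ⊕ D)).intermixed
    convert (h1.union h2).union h3 using 1
    ext w
    simp only [Set.mem_setOf_eq, Set.mem_union, mem_conc]
    constructor
    · rintro ⟨u, hu, v, hv, h⟩
      obtain ⟨l₁, l₂, h4, rfl, rfl⟩ := List.map_eq_append_iff.1 h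
      rcases eq_or_ne l₁ [] with rfl | hne₁
      · left; right
        rw [List.nil_append] at h4
        rw [h4]
        exact ⟨hu, hv⟩
      · rcases eq_or_ne l₂ [] with rfl | hne₂
        · right
          rw [List.append_nil] at h4
          rw [h4]
          exact ⟨hv, hu⟩
        · left; left
          obtain ⟨w₁, d, w₂, rfl, rfl, rfl⟩ := blocks_split h4 hne₁ hne₂
          exact ⟨w₁ ++ [Sum.inr d], ⟨w₁, hu, [Sum.inr d], ⟨_, ⟨d, rfl⟩, rfl⟩, rfl⟩, w₂, hv,
            by simp⟩
    · rintro ((⟨_, ⟨w₁, hu, _, ⟨_, ⟨d, rfl⟩, rfl⟩, rfl⟩, w₂, hv, rfl⟩ | ⟨h4, h5⟩) | ⟨h4, h5⟩)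
      · refine ⟨_, hu, _, hv, ?_⟩
        rw [← List.map_append, ← blocks_append w₁ w₂ d]
        simp
      · exact ⟨[], h4, _, h5, rfl⟩
      · exact ⟨_, h5, [], h4, by simp⟩

end Pool.Agent.Work.MP_47bae8_bl
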