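import Pool.Agent.Work.MP_47bae8_bl.Blocks

set_option autoImplicit false

namespace Pool.Agent.Work.MP_47bae8_bl

open Pool.Agent.Work.MP_47bae8_lc
open Pool.Agent.Work.MP_47bae8_ab

variable {B D : Type}

/-! ### The automaton on the types of the groups -/

/-- The verifying automaton. A state `(p, last)` consists of the value `p` of the part before the
last group and the type of the last group (if any). -/
noncomputable def dq {M : Type} [Monoid M] :
    Option (M × Option (Option (M × M))) → Option (M × M) → Option (M × Option (Option (M × M)))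
  | none, _ => none
  | some (p, none), c => some (p, some c)
  | some (_, some none), _ => none
  | some (p, some (some (p', r))), c => by
      classical exact if p' = p then some (p * r, some c) else none

lemma dq_none {M : Type} [Monoid M] (s : List (Option (M × M))) : s.foldl dq none = none := by
  induction s with
  | nil => rfl
  | cons c s ih => exact ih

lemma dq_start {M : Type} [Monoid M] (p : M) (c : Option (M × M)) :
    dq (some (p, none)) c = some (p, some c) := rfl

lemma dq_dead {M : Type} [Monoid M] (p : M) (c : Option (M × M)) :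
    dq (some (p, some none)) c = none := rfl

lemma dq_step {M : Type} [Monoid M] (p r : M) (c : Option (M × M)) :
    dq (some (p, some (some (p, r)))) c = some (p * r, some c) := by
  simp [dq]

lemma dq_step' {M : Type} [Monoid M] {p p' : M} (h : p' ≠ p) (r : M) (c : Option (M × M)) :
    dq (some (p, some (some (p', r)))) c = none := by
  simp [dq, h]

/-- a surviving step determines the new second component -/
lemma dq_last {M : Type} [Monoid M] {q : Option (M × Option (Option (M × M)))}
    {c : Option (M × M)} {p : M} {l : Option (Option (M × M))} (h : dq q c = some (p, l)) :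
    l = some c := by
  rcases q with _ | ⟨p1, _ | _ | ⟨p', r⟩⟩
  · simp [dq] at h
  · rw [dq_start] at h
    simp only [Option.some.injEq, Prod.mk.injEq] at h
    exact h.2.symm
  · simp [dq] at h
  · by_cases hp : p' = p1
    · subst hp
      rw [dq_step] at h
      simp only [Option.some.injEq, Prod.mk.injEq] at h
      exact h.2.symm
    · rw [dq_step' hp] at h
      simp at h

/-- a state that survives a letter is determined by its second component -/
lemma dq_first {M : Type} [Monoid M] {p p' r : M} {c : Option (M × M)}
    (h : dq (some (p, some (some (p', r)))) c ≠ none) : p = p' := by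
  by_contra hne
  exact h (dq_step' (Ne.symm hne) r c)

lemma dq_iter_none {M : Type} [Monoid M] (s : List (Option (M × M))) (n : ℕ) :
    (fun q => s.foldl dq q)^[n] none = none := by
  induction n with
  | zero => rfl
  | succ n ih => rw [Function.iterate_succ_apply, dq_none, ih]

lemma dq_cf {M : Type} [Monoid M] : CF (dq (M := M)) := by
  intro s n q hn hq
  rcases q with _ | ⟨p, l⟩
  · exact dq_none _
  rcases List.eq_nil_or_concat s with rfl | ⟨s', c, rfl⟩
  · rfl
  rw [List.concat_eq_append] at hq ⊢
  obtain ⟨n, rfl⟩ : ∃ k, n = k + 1 := ⟨n - 1, by omega⟩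
  -- the second component of the state after reading the word
  have hlast : ∀ q p1 l1, (s' ++ [c]).foldl dq q = some (p1, l1) → l1 = some c := by
    intro q p1 l1 h
    rw [List.foldl_append] at h
    exact dq_last h
  have hl : l = some c := by
    rw [Function.iterate_succ_apply'] at hq
    exact hlast _ _ _ hq
  rcases hq1 : (s' ++ [c]).foldl dq (some (p, l)) with _ | ⟨p1, l1⟩
  · rw [Function.iterate_succ_apply, hq1, dq_iter_none] at hq
    simp at hq
  have hl1 : l1 = some c := hlast _ _ _ hq1
  rcases n with _ | n
  · simp only [zero_add, Function.iterate_one] at hq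
    rw [hq1] at hq
    exact hq
  rw [Function.iterate_succ_apply, hq1, Function.iterate_succ_apply] at hq
  have hne2 : (s' ++ [c]).foldl dq (some (p1, l1)) ≠ none := by
    intro h
    rw [h, dq_iter_none] at hq
    simp at hq
  have hne1 : (s' ++ [c]).foldl dq (some (p, l)) ≠ none := by
    rw [hq1]
    simp
  -- both states survive the first letter
  obtain ⟨x, t, hxt⟩ : ∃ x t, s' ++ [c] = x :: t := by
    rcases s' with _ | ⟨x, t⟩
    · exact ⟨c, [], rfl⟩
    · exact ⟨x, t ++ [c], rfl⟩
  rw [hxt, List.foldl_cons] at hne1 hne2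
  have h1 : dq (some (p, l)) x ≠ none := by
    intro h
    rw [h, dq_none] at hne1
    exact hne1 rfl
  have h2 : dq (some (p1, l1)) x ≠ none := by
    intro h
    rw [h, dq_none] at hne2
    exact hne2 rfl
  subst hl
  subst hl1
  rcases c with _ | ⟨p', r⟩
  · exact absurd rfl h1
  · rw [dq_first h1, dq_first h2]

/-- reading a nonempty list from a state with a completed group -/
lemma dq_read {M : Type} [Monoid M] (p p' r : M) {s : List (Option (M × M))} (hs : s ≠ []) :
    s.foldl dq (some (p, some (some (p', r)))) =
      (by classical exact if p' = p then s.foldl dq (some (p * r, none)) else none) := by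
  rcases s with _ | ⟨c, s⟩
  · exact absurd rfl hs
  · by_cases h : p' = p
    · subst h
      simp only [if_true, List.foldl_cons, dq_step, dq_start]
    · simp only [if_neg h, List.foldl_cons, dq_step' h, dq_none]

/-- the accepting states -/
def Acc {M : Type} [Monoid M] (m : M) : Set (Option (M × Option (Option (M × M)))) :=
  {q | ∃ p p' r, q = some (p, some (some (p', r))) ∧ p * r = m}

lemma none_acc {M : Type} [Monoid M] (m : M) :
    (none : Option (M × Option (Option (M × M)))) ∉ Acc m := by
  rintro ⟨p, p', r, h, -⟩
  simp at h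

/-- soundness -/
lemma dq_sound {M : Type} [Monoid M] {Y : Type} (γ : Y → Option (M × M)) (v : Y → M)
    (hγ : ∀ y p r, γ y = some (p, r) → v y = r) {m : M} (l : List Y) (hl : l ≠ []) (p : M)
    (h : (l.map γ).foldl dq (some (p, none)) ∈ Acc m) : p * (l.map v).prod = m := by
  induction l generalizing p with
  | nil => exact absurd rfl hl
  | cons y l ih =>
    rw [List.map_cons, List.foldl_cons, dq_start] at h
    rcases hy : γ y with _ | ⟨p', r⟩
    · exfalso
      rw [hy] at h
      rcases l with _ | ⟨z, l⟩
      · obtain ⟨a, b, c, h1, -⟩ := h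
        simp at h1
      · rw [List.map_cons, List.foldl_cons, dq_dead, dq_none] at h
        exact none_acc m h
    · rw [hy] at h
      rcases eq_or_ne l [] with rfl | hne
      · obtain ⟨a, b, c, h1, h2⟩ := h
        simp only [List.map_nil, List.foldl_nil, Option.some.injEq, Prod.mk.injEq] at h1
        obtain ⟨rfl, rfl, rfl⟩ := h1
        rw [List.map_cons, List.map_nil, List.prod_cons, List.prod_nil, mul_one, hγ y _ _ hy]
        exact h2
      · rw [dq_read p p' r (by simpa using hne)] at h
        by_cases hp : p' = p
        · subst hp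
          simp only [if_true] at h
          have := ih hne _ h
          rw [List.map_cons, List.prod_cons, ← mul_assoc, hγ y _ _ hy]
          exact this
        · simp only [if_neg hp] at h
          exact absurd h (none_acc m)

/-! ### The number of factors from `Z` -/

/-- the powers of a language -/
def pw (Z : Set (List B)) : ℕ → Set (List B)
  | 0 => {[]}
  | k + 1 => conc (pw Z k) Z

/-- the least number `k > 0` of factors in a decomposition into words from `Z` -/
noncomputable def mu (Z : Set (List B)) (y : List B) : ℕ := sInf {k | 0 < k ∧ y ∈ pw Z k}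

lemma mu_le {Z : Set (List B)} {y : List B} {k : ℕ} (hk : 0 < k) (h : y ∈ pw Z k) :
    0 < mu Z y ∧ mu Z y ≤ k ∧ y ∈ pw Z (mu Z y) := by
  have hne : ({k | 0 < k ∧ y ∈ pw Z k} : Set ℕ).Nonempty := ⟨k, hk, h⟩
  have := Nat.sInf_mem hne
  exact ⟨this.1, Nat.sInf_le ⟨hk, h⟩, this.2⟩

lemma mu_eq {Z : Set (List B)} {y : List B} {k : ℕ} :
    mu Z y = k + 1 ↔ y ∈ pw Z (k + 1) ∧ ∀ j < k, y ∉ pw Z (j + 1) := by
  constructor
  · intro h
    have hne : ({k | 0 < k ∧ y ∈ pw Z k} : Set ℕ).Nonempty := by
      by_contra hne
      rw [Set.not_nonempty_iff_eq_empty] at hne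
      unfold mu at h
      rw [hne, Nat.sInf_empty] at h
      omega
    have h1 := Nat.sInf_mem hne
    change 0 < mu Z y ∧ y ∈ pw Z (mu Z y) at h1
    rw [h] at h1
    refine ⟨h1.2, fun j hj hy => ?_⟩
    have := (mu_le (Nat.succ_pos j) hy).2.1
    omega
  · rintro ⟨h1, h2⟩
    obtain ⟨h3, h4, h5⟩ := mu_le (Nat.succ_pos k) h1
    by_contra hne
    refine h2 (mu Z y - 1) (by omega) ?_
    rw [Nat.sub_add_cancel (by omega)]
    exact h5

lemma pw_one {Z : Set (List B)} {y : List B} : y ∈ pw Z 1 ↔ y ∈ Z := by
  constructor
  · rintro ⟨u, hu, v, hv, rfl⟩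
    have : u = [] := hu
    subst this
    exact hv
  · intro h
    exact ⟨[], rfl, y, h, rfl⟩

lemma pw_intermixed [Finite B] [Nonempty B] {M : Type} [Monoid M] [Finite M] (ρ : B → M)
    {Z : Set (List B)} (hZ : ∀ m, Intermixed {z : List B | z ∈ Z ∧ (z.map ρ).prod = m}) (k : ℕ)
    (m : M) : Intermixed {y : List B | y ∈ pw Z k ∧ (y.map ρ).prod = m} := by
  induction k generalizing m with
  | zero =>
    by_cases h : m = 1
    · convert (SF.nil (A := B)).intermixed using 1
      ext y
      simp only [Set.mem_setOf_eq, pw, Set.mem_singleton_iff]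
      constructor
      · exact fun h => h.1
      · rintro rfl
        exact ⟨rfl, by simp [h]⟩
    · convert (SF.empty (A := B)).intermixed using 1
      ext y
      simp only [Set.mem_setOf_eq, pw, Set.mem_singleton_iff, Set.mem_empty_iff_false, iff_false]
      rintro ⟨rfl, h'⟩
      exact h (by simpa using h'.symm)
  | succ k ih =>
    have h1 : Intermixed (⋃ p : M × M, {y : List B | p.1 * p.2 = m ∧
        y ∈ conc {y : List B | y ∈ pw Z k ∧ (y.map ρ).prod = p.1}
          {z : List B | z ∈ Z ∧ (z.map ρ).prod = p.2}}) := by
      apply Intermixed.iUnion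
      intro p
      by_cases hp : p.1 * p.2 = m
      · simpa [hp] using (ih p.1).conc (hZ p.2)
      · simpa [hp] using (SF.empty (A := B)).intermixed
    convert h1 using 1
    ext y
    simp only [Set.mem_setOf_eq, Set.mem_iUnion, mem_conc, pw]
    constructor
    · rintro ⟨⟨u, hu, v, hv, rfl⟩, h⟩
      rw [List.map_append, List.prod_append] at h
      exact ⟨((u.map ρ).prod, (v.map ρ).prod), h, u, ⟨hu, rfl⟩, v, ⟨hv, rfl⟩, rfl⟩
    · rintro ⟨⟨p, p'⟩, h, u, ⟨hu, rfl⟩, v, ⟨hv, rfl⟩, rfl⟩
      refine ⟨⟨u, hu, v, hv, rfl⟩, ?_⟩
      rw [List.map_append, List.prod_append]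
      exact h

lemma pw_intermixed' [Finite B] [Nonempty B] {M : Type} [Monoid M] [Finite M] (ρ : B → M)
    {Z : Set (List B)} (hZ : ∀ m, Intermixed {z : List B | z ∈ Z ∧ (z.map ρ).prod = m}) (k : ℕ) :
    Intermixed (pw Z k) := by
  convert Intermixed.iUnion (fun m => pw_intermixed ρ hZ k m) using 1
  ext y
  simp

/-! ### The type of a group -/

/-- The type of a word over `B`: the code of the number of factors and the value. -/
noncomputable def ty {M : Type} [Monoid M] [Finite M] (ρ : B → M) (Z : Set (List B))
    (y : List B) : Option (M × M) :=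
  if h : 0 < mu Z y ∧ mu Z y ≤ Nat.card M then
    some ((Finite.equivFin M).symm ⟨mu Z y - 1, by omega⟩, (y.map ρ).prod)
  else none

lemma ty_some {M : Type} [Monoid M] [Finite M] {ρ : B → M} {Z : Set (List B)} {y : List B}
    {p r : M} : ty ρ Z y = some (p, r) ↔
      mu Z y = (Finite.equivFin M p).1 + 1 ∧ (y.map ρ).prod = r := by
  unfold ty
  split_ifs with h
  · simp only [Option.some.injEq, Prod.mk.injEq]
    refine and_congr ?_ Iff.rfl
    rw [Equiv.symm_apply_eq]
    constructor
    · intro h1
      have := congrArg Fin.val h1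
      simp only at this
      omega
    · intro h1
      apply Fin.ext
      simp only
      omega
  · simp only [reduceCtorEq, false_iff, not_and]
    intro h1
    exfalso
    apply h
    have := (Finite.equivFin M p).2
    omega

lemma ty_class [Finite B] [Nonempty B] {M : Type} [Monoid M] [Finite M] (ρ : B → M)
    {Z : Set (List B)} (hZ : ∀ m, Intermixed {z : List B | z ∈ Z ∧ (z.map ρ).prod = m})
    (c : Option (M × M)) : Intermixed {y : List B | ty ρ Z y = c} := by
  have h1 : ∀ p r : M, Intermixed {y : List B | ty ρ Z y = some (p, r)} := by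
    intro p r
    have h2 := pw_intermixed ρ hZ ((Finite.equivFin M p).1 + 1) r
    have h3 := Intermixed.iUnion (fun j : Fin (Finite.equivFin M p).1 =>
      pw_intermixed' ρ hZ (j.1 + 1))
    convert Intermixed.inter' h2 h3.compl using 1
    ext y
    simp only [Set.mem_setOf_eq, ty_some, mu_eq, Set.mem_inter_iff, Set.mem_compl_iff,
      Set.mem_iUnion, not_exists]
    constructor
    · rintro ⟨⟨h4, h5⟩, h6⟩
      exact ⟨⟨h4, h6⟩, fun j => h5 j.1 j.2⟩
    · rintro ⟨⟨h4, h6⟩, h5⟩
      exact ⟨⟨h4, fun j hj => h5 ⟨j, hj⟩⟩, h6⟩
  rcases c with _ | ⟨p, r⟩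
  · have h2 := (Intermixed.iUnion (fun p : M × M => h1 p.1 p.2)).compl
    convert h2 using 1
    ext y
    simp only [Set.mem_setOf_eq, Set.mem_compl_iff, Set.mem_iUnion, Prod.exists, not_exists]
    constructor
    · intro h p r
      rw [h]
      simp
    · intro h
      rcases hy : ty ρ Z y with _ | ⟨p, r⟩
      · rfl
      · exact absurd hy (h p r)
  · exact h1 p r

/-! ### The greedy deletion -/

lemma greedy_bl {M : Type} [Monoid M] [Finite M] (ρ : B → M) (Z : Set (List B)) (m : M) (n : ℕ)
    (w : List (B ⊕ D)) (hn : w.length ≤ n) (hw : ∀ z ∈ blocks w, z ∈ Z) (p : M) (Y : List B)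
    (j : ℕ) (hj : j ≤ (Finite.equivFin M p).1) (hY : Y ∈ pw Z j)
    (hm : p * ((Y ++ (blocks w).flatten).map ρ).prod = m) :
    ∃ t : List ((B ⊕ D) × Bool), t.map Prod.fst = w ∧
      (∀ x ∈ (t.filter (fun q => !q.2)).map Prod.fst, ∃ d, x = Sum.inr d) ∧
      ((blocks (Y.map Sum.inl ++ (t.filter (fun q => q.2)).map Prod.fst)).map
        (ty ρ Z)).foldl dq (some (p, none)) ∈ Acc m := by
  induction n generalizing w p Y j with
  | zero =>
    have hw0 : w = [] := List.length_eq_zero_iff.1 (by omega)
    subst hw0
    have hz : ([] : List B) ∈ Z := hw [] (by simp [blocks])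
    have hy : Y ∈ pw Z (j + 1) := ⟨Y, hY, [], hz, by simp⟩
    obtain ⟨h1, h2, h3⟩ := mu_le (Nat.succ_pos j) hy
    have hp := (Finite.equivFin M p).2
    have hty : ty ρ Z Y = some ((Finite.equivFin M).symm ⟨mu Z Y - 1, by omega⟩,
        (Y.map ρ).prod) := by
      unfold ty
      rw [dif_pos ⟨h1, by omega⟩]
    refine ⟨[], rfl, by simp, ?_⟩
    simp only [List.filter_nil, List.map_nil, List.append_nil, blocks_map, List.map_cons,
      List.foldl_cons, List.foldl_nil, dq_start, hty]
    refine ⟨_, _, _, rfl, ?_⟩
    simpa [blocks] using hm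
  | succ n ih =>
    have hp := (Finite.equivFin M p).2
    rcases block_cases w with ⟨z, rfl⟩ | ⟨z, d, w', rfl⟩
    · -- one block
      have hz : z ∈ Z := hw z (by rw [blocks_map]; simp)
      have hy : Y ++ z ∈ pw Z (j + 1) := ⟨Y, hY, z, hz, rfl⟩
      obtain ⟨h1, h2, h3⟩ := mu_le (Nat.succ_pos j) hy
      have hty : ty ρ Z (Y ++ z) = some ((Finite.equivFin M).symm ⟨mu Z (Y ++ z) - 1, by omega⟩,
          ((Y ++ z).map ρ).prod) := by
        unfold ty
        rw [dif_pos ⟨h1, by omega⟩]
      refine ⟨z.map (fun b => (Sum.inl b, true)), by simp, ?_, ?_⟩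
      · intro x hx
        have : (z.map (fun b => ((Sum.inl b : B ⊕ D), true))).filter (fun q => !q.2) = [] := by
          rw [List.filter_eq_nil_iff]
          intro q hq
          obtain ⟨b, -, rfl⟩ := List.mem_map.1 hq
          simp
        rw [this] at hx
        simp at hx
      · have h4 : ((z.map (fun b => ((Sum.inl b : B ⊕ D), true))).filter
            (fun q => q.2)).map Prod.fst = z.map Sum.inl := by
          rw [List.filter_eq_self.2]
          · simp
          · intro q hq
            obtain ⟨b, -, rfl⟩ := List.mem_map.1 hq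
            rfl
        rw [h4, ← List.map_append, blocks_map, List.map_cons, List.map_nil, List.foldl_cons,
          List.foldl_nil, dq_start, hty]
        refine ⟨_, _, _, rfl, ?_⟩
        rw [blocks_map] at hm
        simpa using hm
    · -- several blocks
      have hlen : w'.length ≤ n := by
        simp only [List.length_append, List.length_cons] at hn
        omega
      rw [blocks_map_inr] at hw hm
      have hz : z ∈ Z := hw z (by simp)
      have hw' : ∀ z ∈ blocks w', z ∈ Z := fun z hz => hw z (by simp [hz])
      have hy : Y ++ z ∈ pw Z (j + 1) := ⟨Y, hY, z, hz, rfl⟩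
      obtain ⟨h1, h2, h3⟩ := mu_le (Nat.succ_pos j) hy
      have hf1 : ∀ (e : Bool) (t : List ((B ⊕ D) × Bool)),
          ((z.map (fun b => ((Sum.inl b : B ⊕ D), true)) ++ (Sum.inr d, e) :: t).filter
            (fun q => !q.2)).map Prod.fst =
          (((Sum.inr d, e) :: t).filter (fun q => !q.2)).map Prod.fst := by
        intro e t
        have : (z.map (fun b => ((Sum.inl b : B ⊕ D), true))).filter (fun q => !q.2) = [] := by
          rw [List.filter_eq_nil_iff]
          intro q hq
          obtain ⟨b, -, rfl⟩ := List.mem_map.1 hq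
          simp
        rw [List.filter_append, this, List.nil_append]
      have hf2 : ∀ (e : Bool) (t : List ((B ⊕ D) × Bool)),
          ((z.map (fun b => ((Sum.inl b : B ⊕ D), true)) ++ (Sum.inr d, e) :: t).filter
            (fun q => q.2)).map Prod.fst =
          z.map Sum.inl ++ (((Sum.inr d, e) :: t).filter (fun q => q.2)).map Prod.fst := by
        intro e t
        have : (z.map (fun b => ((Sum.inl b : B ⊕ D), true))).filter (fun q => q.2) =
            z.map (fun b => ((Sum.inl b : B ⊕ D), true)) := by
          rw [List.filter_eq_self.2]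
          intro q hq
          obtain ⟨b, -, rfl⟩ := List.mem_map.1 hq
          rfl
        rw [List.filter_append, this, List.map_append]
        simp
      by_cases hmu : mu Z (Y ++ z) = (Finite.equivFin M p).1 + 1
      · -- keep the separator
        obtain ⟨t, ht1, ht2, ht3⟩ := ih w' hlen hw' (p * ((Y ++ z).map ρ).prod) [] 0
          (Nat.zero_le _) rfl (by
            rw [← hm]
            simp [mul_assoc])
        refine ⟨z.map (fun b => (Sum.inl b, true)) ++ (Sum.inr d, true) :: t, by simp [ht1], ?_,
          ?_⟩
        · rw [hf1]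
          simpa using ht2
        · rw [hf2]
          simp only [List.filter_cons_of_pos, List.map_cons]
          rw [← List.append_assoc, ← List.map_append, blocks_map_inr, List.map_cons,
            List.foldl_cons, dq_start, ty_some.2 ⟨hmu, rfl⟩, dq_read _ _ _ (by
              simpa using blocks_ne_nil _)]
          simp only [if_true]
          simpa using ht3
      · -- delete the separator
        obtain ⟨t, ht1, ht2, ht3⟩ := ih w' hlen hw' p (Y ++ z) (mu Z (Y ++ z)) (by omega) h3 (by
          rw [← hm]
          simp)
        refine ⟨z.map (fun b => (Sum.inl b, true)) ++ (Sum.inr d, false) :: t, by simp [ht1], ?_,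
          ?_⟩
        · rw [hf1]
          intro x hx
          simp only [Bool.not_false, List.filter_cons_of_pos, List.map_cons, List.mem_cons] at hx
          rcases hx with rfl | hx
          · exact ⟨d, rfl⟩
          · exact ht2 x hx
        · rw [hf2]
          simp only [Bool.false_eq_true, not_false_eq_true, List.filter_cons_of_neg]
          rw [← List.append_assoc, ← List.map_append]
          exact ht3

/-! ### The projection is not changed by deleting separators -/

lemma flatten_modifyHead (b : B) (l : List (List B)) (hl : l ≠ []) :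
    (l.modifyHead (fun z => b :: z)).flatten = b :: l.flatten := by
  rcases l with _ | ⟨z, l⟩
  · exact absurd rfl hl
  · simp

lemma proj_delete (t : List ((B ⊕ D) × Bool))
    (h : ∀ x ∈ (t.filter (fun q => !q.2)).map Prod.fst, ∃ d, x = Sum.inr d) :
    (blocks (t.map Prod.fst)).flatten =
      (blocks ((t.filter (fun q => q.2)).map Prod.fst)).flatten := by
  induction t with
  | nil => rfl
  | cons q t ih =>
    obtain ⟨x, e⟩ := q
    rcases e with _ | _
    · have h1 : ∃ d, x = Sum.inr d := h x (by simp)
      have h2 := ih (fun y hy => h y (by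
        simp only [Bool.not_false, List.filter_cons_of_pos, List.map_cons, List.mem_cons]
        exact Or.inr hy))
      obtain ⟨d, rfl⟩ := h1
      simp only [List.map_cons, blocks_inr, List.flatten_cons, List.nil_append,
        Bool.false_eq_true, not_false_eq_true, List.filter_cons_of_neg]
      exact h2
    · have h2 := ih (fun y hy => h y (by simpa using hy))
      rcases x with b | d
      · simp only [List.map_cons, blocks_inl, List.filter_cons_of_pos]
        rw [flatten_modifyHead _ _ (blocks_ne_nil _), flatten_modifyHead _ _ (blocks_ne_nil _), h2]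
      · simp only [List.map_cons, blocks_inr, List.filter_cons_of_pos, List.flatten_cons,
          List.nil_append]
        exact h2

/-- The transfer theorem, hard direction. -/
theorem transfer [Finite B] [Finite D] [Nonempty B] {M : Type} [Monoid M] [Finite M] (ρ : B → M)
    (Z : Set (List B)) (hZ : ∀ m, Intermixed {z : List B | z ∈ Z ∧ (z.map ρ).prod = m}) (m : M) :
    Intermixed {w : List (B ⊕ D) | (∀ z ∈ blocks w, z ∈ Z) ∧
      ((blocks w).flatten.map ρ).prod = m} := by
  have hcard : 0 < Nat.card M := Nat.card_pos
  have h1 : Intermixed {w : List (B ⊕ D) | (blocks w).map (ty ρ Z) ∈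
      {s : List (Option (M × M)) | ∀ c ∈ s, c ∈ {c : Option (M × M) |
        ∃ r, c = some ((Finite.equivFin M).symm ⟨0, hcard⟩, r)}}} :=
    bl_intermixed (ty ρ Z) (ty_class ρ hZ) (SF.star _)
  have h2 : Intermixed {w : List (B ⊕ D) | (blocks w).map (ty ρ Z) ∈
      {s : List (Option (M × M)) | s.foldl dq (some (1, none)) ∈ Acc m}} :=
    bl_intermixed (ty ρ Z) (ty_class ρ hZ) (SF.of_cf dq_cf _ _)
  have h3 := SF.star {x : B ⊕ D | ∃ d, x = Sum.inr d}
  convert Intermixed.inter' h1 (h2.shuffle h3.intermixed) using 1
  have hZ1 : ∀ w : List (B ⊕ D), (∀ z ∈ blocks w, z ∈ Z) ↔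
      ∀ c ∈ (blocks w).map (ty ρ Z), c ∈ {c : Option (M × M) |
        ∃ r, c = some ((Finite.equivFin M).symm ⟨0, hcard⟩, r)} := by
    intro w
    simp only [List.mem_map, Set.mem_setOf_eq, forall_exists_index, and_imp,
      forall_apply_eq_imp_iff₂]
    refine forall₂_congr fun z _ => ?_
    constructor
    · intro hz
      refine ⟨_, ty_some.2 ⟨?_, rfl⟩⟩
      rw [Equiv.apply_symm_apply]
      have := mu_le one_pos (pw_one.2 hz)
      simp only
      omega
    · rintro ⟨r, hr⟩
      have h4 := (ty_some.1 hr).1
      rw [Equiv.apply_symm_apply] at h4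
      exact pw_one.1 (mu_eq.1 h4).1
  ext w
  refine Iff.trans ?_ (and_congr (hZ1 w) Iff.rfl)
  refine and_congr_right fun hw => ?_
  constructor
  · intro hm
    obtain ⟨t, ht1, ht2, ht3⟩ := greedy_bl ρ Z m w.length w le_rfl hw 1 [] 0 (Nat.zero_le _) rfl
      (by simpa using hm)
    exact ⟨t, ht1, by simpa using ht3, ht2⟩
  · rintro ⟨t, rfl, ht3, ht2⟩
    rw [proj_delete t ht2]
    have h4 := dq_sound (ty ρ Z) (fun y => (y.map ρ).prod)
      (fun y p r h => (ty_some.1 h).2) _ (blocks_ne_nil _) 1 ht3
    rw [one_mul] at h4
    rw [← h4]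
    generalize blocks ((t.filter (fun q => q.2)).map Prod.fst) = l
    induction l with
    | nil => simp
    | cons y l ih =>
      rw [List.flatten_cons, List.map_append, List.prod_append, ih, List.map_cons, List.prod_cons]

/-- The transfer theorem. -/
theorem transfer_iff [Finite B] [Finite D] [Nonempty B] {M : Type} [Monoid M] [Finite M]
    (ρ : B → M) (Z : Set (List B)) :
    (∀ m, Intermixed {w : List (B ⊕ D) | (∀ z ∈ blocks w, z ∈ Z) ∧
      ((blocks w).flatten.map ρ).prod = m}) ↔
    (∀ m, Intermixed {z : List B | z ∈ Z ∧ (z.map ρ).prod = m}) := by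
  constructor
  · intro h m
    convert res_intermixed (h m) using 1
    ext z
    simp [blocks_map]
  · intro h m
    exact transfer ρ Z h m

end Pool.Agent.Work.MP_47bae8_bl
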